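import Pool.Agent.H453.OM.FacZ

/-!
# Rationality of the central value of an elliptic curve over a number field: the structure of a minimal
counterexample

Let `K/k` be a finite extension of number fields, and let `Ω(E/K) = |d_K|^(1/2) ∏ P_σ` be the period of the
problem and `R(E/K)` the regulator.

**Values.**  Suppose that the assertion of Q1 holds for all quadratic twists of all elliptic curves `E` over
`k` over all extensions of `k` of degree less than `[K : k]`.  If there is a field `F` with `k ⊆ F ⊊ K` such
that the Galois group `G` of the normal closure `M` of `K/F` has a nontrivial normal subgroup of 2-power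
order (for example `[K : F] = 2` or `[K : F] = 4`, or `K` has an automorphism of order two over `k`, or
`[K : F]` is a power of two and `G` is solvable), then it holds for all `E` over `K`.  For there are
extensions `Z_i/k` of degree less than `[K : k]` and `D_i ∈ Z_i`, which depend only on `K/k`, such that for
all elliptic curves `E` over `k` with the quadratic twists `E_i = E_{D_i}` over `Z_i`

`L(E/K, s) = ∏ L(E_i/Z_i, s)`, up to finitely many Euler factors,  `rk E(K) = ∑ rk E_i(Z_i)`,

`Ω(E/K) ∈ ℚ^× ∏ Ω(E_i/Z_i)`,  `R(E/K) ∈ ℚ^× ∏ R(E_i/Z_i)`,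

with all exponents equal to one.  So a minimal counterexample `K/k` to Q1 has the structure `Shape`.

**Leading coefficients.**  The same holds for the assertion that `ord_{s = 1} L(E/K, s) = rk E(K)` and that the
leading coefficient is in `ℚ^× Ω(E/K) R(E/K)` (the conjecture of Birch and Swinnerton-Dyer modulo rational
numbers).  As this number is not zero, quotients are allowed, and much less structure remains for a minimal
counterexample (`StrongShape`): the permutation character of `Gal(M/F)` on the cosets of `Gal(M/K)` is no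
integral combination of those of smaller degree; if `A` is a nontrivial elementary abelian normal `p`-subgroup
of `Gal(M/F)`, `p` is odd and, if `[A : A ∩ Gal(M/K)] = p ^ d`, some subgroup of index `p` in `A` that
contains this intersection has at least `p ^ (d - 1)` conjugates; and `Aut(K/k)` has odd order and all its
subgroups of order `p q`, `p` and `q` primes, are cyclic.

The proof.  The decompositions of the permutation characters are those of
`Pool.Agent.Results.MP_7ed9c3_nt.ProductsOfTwists` and `Pool.Agent.Results.MP_0d9be2_nt.MinimalCounterexample`.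
In a relation between permutation characters the periods and the regulators multiply (this is in the library:
`Pool.Agent.Results.MP_90f827_nt.AscentFromSubfields`).  New here are, for a quadratic extension
`Y = Z(√D)`, `Ω(E/Y) ∈ ℚ^× Ω(E/Z) Ω(E_D/Z)` (the period lattice of the twist is `(6 √D)⁻¹` times that of
`E`; at a real place with `D > 0` this gives two real periods, and with `D < 0` a real and an imaginary
period, whose product is a rational multiple of the area; a lattice is determined by `g₂` and `g₃`; and
`d_Y ∈ ℚ^(×2) N(D)`), and `R(E/Y) ∈ ℚ^× R(E/Z) R(E_D/Z)` (canonical heights and changes of variables; the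
two eigenspaces of `Gal(Y/Z)` on `E(Y)` are orthogonal).
-/

set_option autoImplicit false

namespace Pool.Agent.Results.MP_90f827_nt.MinimalCounterexample

open NumberField IsDedekindDomain
open Pool.Agent.R433.MD (Ext)
open Pool.Agent.N19.BR.Def
open scoped Classical ComplexConjugate

/-- Period lattices of `E` over `K`: for every embedding `ν : K → ℂ` a basis `ω₁, ω₂` of the period
lattice `Λ_ν` of the differential `dx / (2y + a₁x + a₃)` of the curve `E ×_ν ℂ` (the lattice with
`g₂ = ν(c₄)/12`, `g₃ = ν(c₆)/216`), such that the lattices are compatible with complex conjugation, and for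
real `ν` a nonzero real element of `Λ_ν`. -/
structure PeriodLattices {K : Type} [Field K] [NumberField K] (E : WeierstrassCurve K) where
  basis : (K →+* ℂ) → PeriodPair
  g₂_eq : ∀ ν, (basis ν).g₂ = ν E.c₄ / 12
  g₃_eq : ∀ ν, (basis ν).g₃ = ν E.c₆ / 216
  conj_mem : ∀ ν, ∀ x ∈ (basis ν).lattice,
    conj x ∈ (basis (ComplexEmbedding.conjugate ν)).lattice
  real : (K →+* ℂ) → ℝ
  real_ne : ∀ ν, ComplexEmbedding.IsReal ν → real ν ≠ 0
  real_mem : ∀ ν, ComplexEmbedding.IsReal ν → ((real ν : ℝ) : ℂ) ∈ (basis ν).lattice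

section
variable {K : Type} [Field K] [NumberField K] {E : WeierstrassCurve K}

/-- `P_σ` for an infinite place `σ` of `K`: a real period if `σ` is real, `Im (ω₁ conj(ω₂))` if `σ` is
complex. -/
noncomputable def period (P : PeriodLattices E) (σ : InfinitePlace K) : ℝ :=
  if σ.IsReal then P.real σ.embedding
  else ((P.basis σ.embedding).ω₁ * conj (P.basis σ.embedding).ω₂).im

/-- `Ω(E) = |d_K|^(1/2) ∏ P_σ`. -/
noncomputable def Omega (P : PeriodLattices E) : ℝ := Real.sqrt |(discr K : ℝ)| * ∏ σ, period P σ

/-- `h` is a canonical height on the points of `W` (relative to `K`): it satisfies the parallelogram law and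
differs from the height of the `x`-coordinate by a bounded function. -/
def IsCanonicalHeight (W : WeierstrassCurve K) (h : W.toAffine.Point → ℝ) : Prop :=
  (∀ P Q, h (P + Q) + h (P - Q) = 2 * (h P + h Q)) ∧
    ∃ C : ℝ, ∀ P, |h P - Height.logHeight P.xRep| ≤ C

/-- The rank of `W(K)`. -/
noncomputable def rank (W : WeierstrassCurve K) : ℕ := Module.finrank ℤ W.toAffine.Point

/-- `R` is the determinant of the height pairing on a maximal independent family of points (a rational
multiple of the regulator of `W(K)`; it is `1` if the rank is `0`). -/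
def IsRegulator (W : WeierstrassCurve K) (R : ℝ) : Prop :=
  ∃ h : W.toAffine.Point → ℝ, IsCanonicalHeight W h ∧ ∃ P : Fin (rank W) → W.toAffine.Point,
    LinearIndependent ℤ P ∧ (Matrix.of fun i j => h (P i + P j) - h (P i) - h (P j) :
      Matrix (Fin (rank W)) (Fin (rank W)) ℝ).det = R

end

/-- The quadratic twist `y² = x³ - 27 d² c₄ x - 54 d³ c₆` of `E` by `d`, where `c₄`, `c₆` are the
invariants of `E`. -/
def QuadraticTwist {F : Type} [Field F] (E : WeierstrassCurve F) (d : F) : WeierstrassCurve F where
  a₁ := 0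
  a₂ := 0
  a₃ := 0
  a₄ := -27 * d ^ 2 * E.c₄
  a₆ := -54 * d ^ 3 * E.c₆

/-- The `L`-series of an elliptic curve over `F`, the product of the Euler factors of the minimal models
`V`. -/
noncomputable def LFunction {F : Type} [Field F] [NumberField F]
    (V : HeightOneSpectrum (𝓞 F) → WeierstrassCurve (𝓞 F)) (s : ℂ) : ℂ := ∏' v, factor V s v

/-- The incomplete `L`-series of an elliptic curve over `F`: the product of the Euler factors of the
minimal models `V` at the primes of `F` that do not divide the natural number `N`. -/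
noncomputable def IncompleteLFunction {F : Type} [Field F] [NumberField F] (N : ℕ)
    (V : HeightOneSpectrum (𝓞 F) → WeierstrassCurve (𝓞 F)) (s : ℂ) : ℂ :=
  ∏' v : HeightOneSpectrum (𝓞 F), if ((N : ℕ) : 𝓞 F) ∈ v.asIdeal then 1 else factor V s v

section
variable {k : Type} [Field k] [NumberField k]

/-- The quadratic twist by `D` of `E` over the extension `Z` of `k`. -/
def TwistOver (E : WeierstrassCurve k) (Z : Ext k) (D : 𝓞 Z.F) : WeierstrassCurve Z.F :=
  QuadraticTwist (E.map (algebraMap k Z.F)) (D : Z.F)

variable {ι : Type} [Fintype ι] (E : WeierstrassCurve k) (K : Ext k) (Z : ι → Ext k)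
  (D : ∀ i, 𝓞 (Z i).F) (e : ι → ℤ)

/-- For all sufficiently divisible natural numbers `N` the incomplete `L`-series of `E` over `K` is the
product of the incomplete `L`-series of the quadratic twists of `E` by `D i` over `Z i`, for `Re s > 3/2`. -/
def SeriesFactor : Prop :=
  ∀ (V : HeightOneSpectrum (𝓞 K.F) → WeierstrassCurve (𝓞 K.F))
    (_ : MinimalModels (E.map (algebraMap k K.F)) V)
    (W : ∀ i, HeightOneSpectrum (𝓞 (Z i).F) → WeierstrassCurve (𝓞 (Z i).F))
    (_ : ∀ i, MinimalModels (TwistOver E (Z i) (D i)) (W i)),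
    ∃ N₀ : ℕ, N₀ ≠ 0 ∧ ∀ N : ℕ, N ≠ 0 → N₀ ∣ N → ∀ s : ℂ, 3 / 2 < s.re →
      IncompleteLFunction N V s = ∏ i, IncompleteLFunction N (W i) s

/-- The rank of `E(K)` is the sum of the ranks of the twists, with the coefficients `e i`. -/
def RankSum : Prop :=
  (rank (E.map (algebraMap k K.F)) : ℤ) = ∑ i, e i * (rank (TwistOver E (Z i) (D i)) : ℤ)

/-- The period of `E/K` is a nonzero rational multiple of the product of the powers, with the exponents
`e i`, of the periods of the twists. -/
def PeriodFactor : Prop :=
  ∀ (P : PeriodLattices (E.map (algebraMap k K.F)))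
    (Q : ∀ i, PeriodLattices (TwistOver E (Z i) (D i))),
    ∃ q : ℚ, q ≠ 0 ∧ Omega P = q * ∏ i, Omega (Q i) ^ e i

/-- The regulator of `E/K` is a nonzero rational multiple of the product of the powers, with the exponents
`e i`, of the regulators of the twists. -/
def RegulatorFactor : Prop :=
  ∀ (R : ℝ) (S : ι → ℝ), IsRegulator (E.map (algebraMap k K.F)) R →
    (∀ i, IsRegulator (TwistOver E (Z i) (D i)) (S i)) → ∃ q : ℚ, q ≠ 0 ∧ R = q * ∏ i, S i ^ e i

/-- `L(E/K, s) = ρ(s) ∏ L(E_{D i}/Z i, s) ^ (e i)` for `Re s > 3/2`, where `ρ` is meromorphic on `ℂ`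
without zeros and poles for `Re s > 1` and at `s = 1`, and `ρ(1)` is rational. -/
def SeriesPowers : Prop :=
  ∀ (V : HeightOneSpectrum (𝓞 K.F) → WeierstrassCurve (𝓞 K.F))
    (_ : MinimalModels (E.map (algebraMap k K.F)) V)
    (W : ∀ i, HeightOneSpectrum (𝓞 (Z i).F) → WeierstrassCurve (𝓞 (Z i).F))
    (_ : ∀ i, MinimalModels (TwistOver E (Z i) (D i)) (W i)),
    ∃ ρ : ℂ → ℂ, (MeromorphicOn ρ Set.univ ∧ ∃ q : ℚ, ρ 1 = q) ∧
      (∀ s : ℂ, (1 < s.re ∨ s = 1) → AnalyticAt ℂ ρ s ∧ ρ s ≠ 0) ∧
      ∀ s : ℂ, 3 / 2 < s.re → LFunction V s = ρ s * ∏ i, LFunction (W i) s ^ e i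

end

/-- There are finitely many extensions `Z i` of `k` of degree less than `[K : k]` and nonzero integers `D i`
of `Z i` such that the sum of the degrees of the `Z i` is `[K : k]` and such that for all elliptic curves `E`
over `k` the `L`-series, the period and the regulator of `E/K` are the products, and the rank is the sum, of
those of the quadratic twists of `E` by `D i` over `Z i`; up to finitely many Euler factors in the first and
nonzero rational numbers in the second and third case. -/
def Decomposes (k : Type) [Field k] [NumberField k] (K : Ext k) : Prop :=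
  ∃ (ι : Type) (_ : Fintype ι) (Z : ι → Ext k) (D : ∀ i, 𝓞 (Z i).F),
    (∀ i, D i ≠ 0 ∧ Module.finrank k (Z i).F < Module.finrank k K.F) ∧
    ∑ i, Module.finrank k (Z i).F = Module.finrank k K.F ∧
    ∀ (E : WeierstrassCurve k) [E.IsElliptic], SeriesFactor E K Z D ∧ RankSum E K Z D 1 ∧
      PeriodFactor E K Z D 1 ∧ RegulatorFactor E K Z D 1

/-- There are finitely many extensions `Z i` of `k` of degree less than `[K : k]`, nonzero integers `D i` of
`Z i` and integers `e i` such that for all elliptic curves `E` over `k` the `L`-series, the period and the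
regulator of `E/K` are the products of the `e i`-th powers, and the rank is the sum with the coefficients
`e i`, of those of the quadratic twists of `E` by `D i` over `Z i`; up to finitely many Euler factors and
rational numbers. -/
def Reducible (k : Type) [Field k] [NumberField k] (K : Ext k) : Prop :=
  ∃ (ι : Type) (_ : Fintype ι) (Z : ι → Ext k) (D : ∀ i, 𝓞 (Z i).F) (e : ι → ℤ),
    (∀ i, D i ≠ 0 ∧ Module.finrank k (Z i).F < Module.finrank k K.F) ∧
    ∀ (E : WeierstrassCurve k) [E.IsElliptic], SeriesPowers E K Z D e ∧ RankSum E K Z D e ∧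
      PeriodFactor E K Z D e ∧ RegulatorFactor E K Z D e

/-- `Λ` is an analytic continuation of `L(E/K, s)` to (a neighbourhood of) the union of the half plane
`Re s > 1` and of the point `1`. -/
def IsContinuation {K : Type} [Field K] [NumberField K] (E : WeierstrassCurve K) (Λ : ℂ → ℂ) : Prop :=
  AnalyticOnNhd ℂ Λ ({s | 1 < s.re} ∪ {1}) ∧
    (∃ V : HeightOneSpectrum (𝓞 K) → WeierstrassCurve (𝓞 K), MinimalModels E V) ∧
    ∀ V : HeightOneSpectrum (𝓞 K) → WeierstrassCurve (𝓞 K), MinimalModels E V →
      ∀ s : ℂ, 3 / 2 < s.re → Λ s = LFunction V s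

/-- **The assertion of Q1 for `E/K`**: `L(E/K, s)` has an analytic continuation to `{Re s > 1} ∪ {1}`, and
`L(E/K, 1)` is a rational multiple of `Ω(E/K)`. -/
def CentralValue (K : Type) [Field K] [NumberField K] (E : WeierstrassCurve K) : Prop :=
  ∃ Λ : ℂ → ℂ, IsContinuation E Λ ∧ ∀ P : PeriodLattices E, ∃ q : ℚ, Λ 1 = q * ((Omega P : ℝ) : ℂ)

/-- `L(E/K, s)` has an analytic continuation to `{Re s > 1} ∪ {1}`, and if its order `m` at `s = 1` is at
most `t`, then `m` is the rank of `E(K)` and the leading coefficient at `s = 1` is a nonzero rational multiple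
of `Ω(E/K)` times the regulator. -/
def LeadingUpTo (t : ℕ∞) (K : Type) [Field K] [NumberField K] (E : WeierstrassCurve K) : Prop :=
  ∃ Λ : ℂ → ℂ, IsContinuation E Λ ∧ ∃ m : ℕ, analyticOrderAt Λ 1 = m ∧
    ((m : ℕ∞) ≤ t → rank E = m ∧ ∀ (P : PeriodLattices E) (R : ℝ), IsRegulator E R →
      ∃ q : ℚ, q ≠ 0 ∧ meromorphicTrailingCoeffAt Λ 1 = q * ((Omega P * R : ℝ) : ℂ))

/-- `L(E/K, s)` has a meromorphic continuation to `U`, its order `m` at `s = 1` is congruent to the rank of
`E(K)` modulo `d` (equal to the rank, if `d = 0`), and the leading coefficient at `s = 1` is a nonzero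
rational multiple of `Ω(E/K)` times the regulator. -/
def LeadingMod (d : ℤ) (U : Set ℂ) (K : Type) [Field K] [NumberField K] (E : WeierstrassCurve K) :
    Prop :=
  ∃ Λ : ℂ → ℂ, Continues U 1 E Λ ∧ ∃ m : ℤ, meromorphicOrderAt Λ 1 = m ∧ d ∣ m - rank E ∧
    ∀ (P : PeriodLattices E) (R : ℝ), IsRegulator E R →
      ∃ q : ℚ, q ≠ 0 ∧ meromorphicTrailingCoeffAt Λ 1 = q * ((Omega P * R : ℝ) : ℂ)

/-- The structure of a minimal counterexample `K/k` to the assertion of Q1.

(1) For every field `F` between `k` and `K` and the normal closure `M` of `K/F` the group `Gal(M/F)` has no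
nontrivial normal 2-subgroup.  If it is solvable and `F ≠ K`, then `[K : F]` is divisible by an odd prime
number `p`, and it is a power of `p` if there is no field strictly between `F` and `K`.

(2) The group `Aut(K/k)` has odd order. -/
def Shape (k : Type) [Field k] (K : Type) [Field K] [Algebra k K] : Prop :=
  (∀ (F : IntermediateField k K) (M : Type) [Field M] [NumberField M] [Algebra K M]
    [IsNormalClosure F K M],
    (∀ T : Subgroup Gal(M/F), T.Normal → IsPGroup 2 T → T = ⊥) ∧
    (Group.IsSolvable Gal(M/F) → Module.finrank F K ≠ 1 →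
      ∃ p : ℕ, p.Prime ∧ p ≠ 2 ∧ p ∣ Module.finrank F K ∧
        ((∀ L : IntermediateField F K, L = ⊥ ∨ L = ⊤) → ∃ d, Module.finrank F K = p ^ d))) ∧
  Odd (Nat.card Gal(K/k))

section groups
variable {G : Type} [Group G]

/-- The number of the cosets of `H` fixed by `g`: the permutation character of `G` on `G / H`. -/
noncomputable def fixedCosets (H : Subgroup G) (g : G) : ℤ :=
  (Nat.card {c : G ⧸ H // g • c = c} : ℤ)

/-- `S` has index less than `n`, or it has index two in a subgroup of index less than `n`. -/
def SmallIndex (n : ℕ) (S : Subgroup G) : Prop :=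
  S.index < n ∨ ∃ S₀ : Subgroup G, S ≤ S₀ ∧ S.relIndex S₀ = 2 ∧ S₀.index < n

/-- The permutation character on `G / H` is not an integral combination of the permutation characters on
the sets `G / S i` with subgroups `S i` of index less than `[G : H]`, or of index two in a subgroup of index
less than `[G : H]`. -/
def NoRelation (H : Subgroup G) : Prop :=
  ∀ (m : ℕ) (S : Fin m → Subgroup G) (c : Fin m → ℤ), (∀ i, SmallIndex H.index (S i)) →
    ∃ g : G, fixedCosets H g ≠ ∑ i, c i * fixedCosets (S i) g

/-- If `A` is a normal subgroup, elementary abelian of exponent `p`, and not contained in `H`, then `p ≠ 2`,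
and there is a subgroup `B` of index `p` in `A` that contains `A ∩ H` such that
`[A : A ∩ H] ≤ p [A H : N(B)]`, where `N(B)` is the normalizer of `B` in `A H` (the index of `N(B)` is the
number of the conjugates of `B` under `A H`, or under `H`, since `A` is abelian). -/
def LargeOrbits (H : Subgroup G) : Prop :=
  ∀ (p : ℕ) (A : Subgroup G), p.Prime → A.Normal → (∀ a ∈ A, ∀ b ∈ A, a * b = b * a) →
    (∀ a ∈ A, a ^ p = 1) → ¬ A ≤ H →
    p ≠ 2 ∧ ∃ B ≤ A, A ⊓ H ≤ B ∧ B.relIndex A = p ∧
      H.relIndex A ≤ p * (Subgroup.normalizer (B : Set G)).relIndex (A ⊔ H)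

end groups

/-- The automorphisms of `M/F` that fix `K`. -/
def FixK {k : Type} [Field k] {K : Type} [Field K] [Algebra k K] (F : IntermediateField k K)
    (M : Type) [Field M] [Algebra K M] : Subgroup Gal(M/F) :=
  (IsScalarTower.toAlgHom F K M).fieldRange.fixingSubgroup

/-- The structure of a minimal counterexample `K/k` to the assertion on the leading coefficients.

(1) For every field `F` between `k` and `K` and every Galois extension `M/F` that contains `K`, the
permutation character of `Gal(M/F)` on the cosets of `Gal(M/K)` is no combination of permutation characters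
of smaller degree (`NoRelation`), and `LargeOrbits` holds.

(2) For every field `F` between `k` and `K`, and the normal closure `M` of `K/F`, the group `Gal(M/F)` has
no nontrivial normal 2-subgroup.  If it is solvable, `F ≠ K`, and there is no field strictly between `F` and
`K`, then `[K : F]` is a power of an odd prime.

(3) The group `Aut(K/k)` has odd order, and all its subgroups whose order is the product of two (equal or
different) primes are cyclic. -/
def StrongShape (k : Type) [Field k] (K : Type) [Field K] [Algebra k K] : Prop :=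
  (∀ (F : IntermediateField k K) (M : Type) [Field M] [NumberField M] [Algebra K M] [IsGalois F M],
    NoRelation (FixK F M) ∧ LargeOrbits (FixK F M)) ∧
  (∀ (F : IntermediateField k K) (M : Type) [Field M] [NumberField M] [Algebra K M]
    [IsNormalClosure F K M],
    (∀ T : Subgroup Gal(M/F), T.Normal → IsPGroup 2 T → T = ⊥) ∧
    (Group.IsSolvable Gal(M/F) → Module.finrank F K ≠ 1 →
      (∀ L : IntermediateField F K, L = ⊥ ∨ L = ⊤) →
      ∃ p d : ℕ, p.Prime ∧ p ≠ 2 ∧ d ≠ 0 ∧ Module.finrank F K = p ^ d)) ∧
  Odd (Nat.card Gal(K/k)) ∧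
  ∀ (B : Subgroup Gal(K/k)) (p q : ℕ), p.Prime → q.Prime → Nat.card B = p * q → IsCyclic B

section proofs

/-- the period lattices as an object of the library -/
noncomputable def PeriodLattices.toPeriods {K : Type} [Field K] [NumberField K]
    {E : WeierstrassCurve K} (P : PeriodLattices E) : Pool.Agent.Q92.LV.Periods E where
  pair := P.basis
  g₂_eq := P.g₂_eq
  g₃_eq := P.g₃_eq
  conj_mem := P.conj_mem
  re := P.real
  re_ne := P.real_ne
  re_mem := P.real_mem

/-- and conversely -/
noncomputable def ofPeriods {K : Type} [Field K] [NumberField K]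
    {E : WeierstrassCurve K} (P : Pool.Agent.Q92.LV.Periods E) : PeriodLattices E where
  basis := P.pair
  g₂_eq := P.g₂_eq
  g₃_eq := P.g₃_eq
  conj_mem := P.conj_mem
  real := P.re
  real_ne := P.re_ne
  real_mem := P.re_mem

theorem om_eq {K : Type} [Field K] [NumberField K] {E : WeierstrassCurve K} (P : PeriodLattices E) :
    P.toPeriods.Om = Omega P := rfl

theorem om_eq' {K : Type} [Field K] [NumberField K] {E : WeierstrassCurve K}
    (P : Pool.Agent.Q92.LV.Periods E) : Omega (ofPeriods P) = P.Om := rfl

end proofs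

/-- **Rationality of central values and leading coefficients: the structure of a minimal counterexample.**

(0) `Ω(E)` is not zero, and it does not depend on the choices up to a rational number.

Let `K/k` be an extension of number fields.

(1) There are extensions `Z_i` of `k` of degree less than `[K : k]` and `D_i ∈ Z_i` such that for all elliptic
curves `E` over `k` the `L`-series of `E` over `K` is, up to finitely many Euler factors, the product of the
`L`-series of the quadratic twists of `E` by `D_i` over `Z_i`, the rank of `E(K)` is the sum of their ranks,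
and the period and the regulator are, up to rational numbers, the products of their periods and regulators;
or `K/k` has the structure `Shape`.

(2) The same holds with integral exponents, or `K/k` has the much more special structure `StrongShape`.

(3) Let `E` be an elliptic curve over `k`.  If the assertion of Q1 is true for all quadratic twists of `E`
over all extensions of `k` of degree less than `[K : k]`, it is true for `E` over `K`, or `K/k` has the
structure `Shape`.

(4) The same holds, for every `t`, for the assertion that, if the order of vanishing at `s = 1` is at most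
`t`, it is equal to the rank and the leading coefficient of the `L`-function at `s = 1` is a nonzero rational
multiple of the period times the regulator.

(5) If the `L`-functions of all quadratic twists of `E` over all extensions of `k` of degree less than
`[K : k]` have meromorphic continuations, the order at `s = 1` is congruent to the rank modulo `d` (equal to
it, if `d = 0`), and the leading coefficient at `s = 1` is a nonzero rational multiple of the period times the
regulator, then this is true for `E` over `K`, or `K/k` has the structure `StrongShape`. -/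
theorem result :
    (∀ (K : Type) [Field K] [NumberField K] (E : WeierstrassCurve K) (P P' : PeriodLattices E),
      Omega P ≠ 0 ∧ ∃ q : ℚ, q ≠ 0 ∧ Omega P = q * Omega P') ∧
    ∀ (k : Type) [Field k] [NumberField k] (K : Type) [Field K] [NumberField K] [Algebra k K],
    (Decomposes k ⟨K⟩ ∨ Shape k K) ∧ (Reducible k ⟨K⟩ ∨ StrongShape k K) ∧
    (∀ (E : WeierstrassCurve k) [E.IsElliptic],
      (∀ Z : Ext k, Module.finrank k Z.F < Module.finrank k K → ∀ D : 𝓞 Z.F, D ≠ 0 →
        CentralValue Z.F (TwistOver E Z D)) →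
      CentralValue K (E.map (algebraMap k K)) ∨ Shape k K) ∧
    (∀ (E : WeierstrassCurve k) [E.IsElliptic] (t : ℕ∞),
      (∀ Z : Ext k, Module.finrank k Z.F < Module.finrank k K → ∀ D : 𝓞 Z.F, D ≠ 0 →
        LeadingUpTo t Z.F (TwistOver E Z D)) →
      LeadingUpTo t K (E.map (algebraMap k K)) ∨ Shape k K) ∧
    (∀ (E : WeierstrassCurve k) [E.IsElliptic] (d : ℤ) (U : Set ℂ), (1 : ℂ) ∈ U →
      (∀ Z : Ext k, Module.finrank k Z.F < Module.finrank k K → ∀ D : 𝓞 Z.F, D ≠ 0 →
        LeadingMod d U Z.F (TwistOver E Z D)) →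
      LeadingMod d U K (E.map (algebraMap k K)) ∨ StrongShape k K) := by
  refine ⟨fun K _ _ E P P' => ⟨?_, ?_⟩, ?_⟩
  · rw [← om_eq]
    exact Pool.Agent.Q92.LV.om_ne _
  · rw [← om_eq, ← om_eq]
    exact Pool.Agent.H453.OM.om_indep _ _
  intro k _ _ K _ _ _
  have hshape : ¬ Pool.Agent.H453.OM.FacO (Module.finrank k K) (⟨K⟩ : Ext k) → Shape k K := by
    intro hK0
    have hK := Pool.Agent.H453.OM.no_posO hK0
    refine ⟨fun F M _ _ _ _ => ?_, Pool.Agent.H453.EN.aut_odd hK⟩
    have hn : Normal F M := IsNormalClosure.normal (F := F) (K := K) (L := M)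
    have hg : IsGalois F M := ⟨⟩
    exact ⟨fun T hT h2 => Pool.Agent.H453.EN.two_radical hK F M hT h2,
      fun hs hF => Pool.Agent.H453.EN.solvable_case hK F M hF⟩
  have hshape' : ¬ Pool.Agent.H453.OM.FacZ (Module.finrank k K) (⟨K⟩ : Ext k) →
      StrongShape k K := by
    intro hK0
    have hK := Pool.Agent.H453.OM.no_relZ hK0
    refine ⟨fun F M _ _ _ _ => ⟨fun m S c hS => ?_, fun p A hp hA hcomm hexp hAH =>
      Pool.Agent.H453.BS.large_orbit hK F M hp hA hcomm hexp hAH⟩, fun F M _ _ _ _ => ?_,
      Pool.Agent.H453.BS.aut_case hK⟩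
    · by_contra hcon
      push Not at hcon
      have hidx : (FixK F M).index = Module.finrank F K := Pool.Agent.H453.MC.index_fix F M
      refine hK F M ?_
      have e : Pool.Agent.R433.MD.fx (IsScalarTower.toAlgHom F K M).fieldRange.fixingSubgroup =
          ∑ i, c i • Pool.Agent.R433.MD.fx (S i) := by
        funext g
        rw [Finset.sum_apply]
        exact hcon g
      rw [e, ← hidx]
      exact Submodule.sum_mem _ fun i _ => Submodule.smul_mem _ _
        (Submodule.subset_span ⟨_, hS i, rfl⟩)
    · have hn : Normal F M := IsNormalClosure.normal (F := F) (K := K) (L := M)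
      have hg : IsGalois F M := ⟨⟩
      exact ⟨fun T hT h2 => Pool.Agent.H453.BS.two_radical hK F M hT h2,
        fun hs hF hmax => Pool.Agent.H453.BS.solvable_case hK F M hmax hF⟩
  have hinc : ∀ {F : Type} [Field F] [NumberField F] (N : ℕ)
      (V : HeightOneSpectrum (𝓞 F) → WeierstrassCurve (𝓞 F)) (s : ℂ),
      IncompleteLFunction N V s = Pool.Agent.H453.EN.LN N V s := by
    intro F _ _ N V s
    unfold IncompleteLFunction Pool.Agent.H453.EN.LN Pool.Agent.H453.EN.ef Pool.Agent.H453.EN.Dv
    refine tprod_congr fun v => ?_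
    rw [Pool.Agent.N19.BR.factor_eq]
  have hcomp : ∀ {F : Type} [Field F] [NumberField F]
      (V : HeightOneSpectrum (𝓞 F) → WeierstrassCurve (𝓞 F)) (s : ℂ),
      LFunction V s = Pool.Agent.R433.MD.LL V s := fun V s => Pool.Agent.N19.BR.prod_eq V s
  have hregE : ∀ {F : Type} [Field F] [NumberField F] {W : WeierstrassCurve F} {R : ℝ},
      IsRegulator W R ↔ Pool.Agent.Q92.LV.IsRegE W R := Iff.rfl
  have hreg : ∀ {F : Type} [Field F] [NumberField F] {W : WeierstrassCurve F} (hW : W.IsElliptic)
      {R : ℝ}, IsRegulator W R → Pool.Agent.Q92.LV.Sim R (Pool.Agent.Q92.LV.reg W) := by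
    intro F _ _ W hW R h
    exact Pool.Agent.Q92.LV.IsRegE.quot hW (hregE.1 h) (Pool.Agent.Q92.LV.reg_spec hW)
  have hTw : ∀ (E : WeierstrassCurve k) (hE : E.IsElliptic) (Z : Ext k) (D : 𝓞 Z.F), D ≠ 0 →
      (TwistOver E Z D).IsElliptic := fun E hE Z D hD =>
    Pool.Agent.H453.MC.twist_elliptic (E := E.map (algebraMap k Z.F)) inferInstance (by
      rw [Ne, FaithfulSMul.algebraMap_eq_zero_iff]
      exact hD)
  have hrk : ∀ {F : Type} [Field F] [NumberField F] {W : WeierstrassCurve F} (hW : W.IsElliptic)
      {r : ℕ}, Module.rank ℤ W.toAffine.Point = r ↔ rank W = r := by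
    intro F _ _ W hW r
    obtain ⟨n, hn⟩ := Pool.Agent.H453.EN.exists_rank W hW
    have h1 : rank W = n := by
      unfold rank Module.finrank
      rw [hn, Cardinal.toNat_natCast]
    rw [h1, hn, Nat.cast_inj]
  refine ⟨?_, ?_, ?_, ?_, ?_⟩
  · by_cases hK : Pool.Agent.H453.OM.FacO (Module.finrank k K) (⟨K⟩ : Ext k)
    · left
      obtain ⟨ι, hι, Z, D, hZ, hdeg, hL⟩ := hK
      refine ⟨ι, hι, Z, D, hZ, hdeg, fun E hE => ⟨fun V hV W hW => ?_, ?_, fun P Q => ?_,
        fun R S hR hS => ?_⟩⟩
      · obtain ⟨N₀, hN₀, h⟩ := (hL E hE).1.1 V ((Pool.Agent.N19.BR.minimalModels_iff _ _).1 hV) W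
          (fun i => (Pool.Agent.N19.BR.minimalModels_iff _ _).1 (hW i))
        refine ⟨N₀, hN₀, fun N hN hNN s hs => ?_⟩
        rw [hinc, h N hN hNN s hs]
        exact Finset.prod_congr rfl fun i _ => (hinc N (W i) s).symm
      · have h1 := (hL E hE).1.2 (fun i => rank (TwistOver E (Z i) (D i)))
          (fun i => (hrk (hTw E hE (Z i) (D i) (hZ i).1)).2 rfl)
        have h2 := (hrk (W := E.map (algebraMap k K)) inferInstance).1 h1
        unfold RankSum
        rw [h2]
        push_cast
        simp only [Pi.one_apply, one_mul]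
      · obtain ⟨p⟩ := Pool.Agent.H453.OM.exists_base P.toPeriods
        simp only [Pi.one_apply, zpow_one]
        exact (Pool.Agent.H453.OM.om_indep P.toPeriods (p.up K)).trans
          ((hL E hE).2.1 p fun i => (Q i).toPeriods)
      · have h1 := hreg (W := E.map (algebraMap k K)) inferInstance hR
        have h2 : Pool.Agent.Q92.LV.Sim (∏ i, S i) (∏ i, Pool.Agent.Q92.LV.reg
            (TwistOver E (Z i) (D i))) := Pool.Agent.Q92.LV.Sim.prod _ fun i _ =>
          hreg (hTw E hE (Z i) (D i) (hZ i).1) (hS i)
        simp only [Pi.one_apply, zpow_one]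
        exact h1.trans (((hL E hE).2.2).trans h2.symm)
    · exact Or.inr (hshape hK)
  · by_cases hK : Pool.Agent.H453.OM.FacZ (Module.finrank k K) (⟨K⟩ : Ext k)
    · left
      obtain ⟨ι, hι, Z, D, e, hZ, hL⟩ := hK
      refine ⟨ι, hι, Z, D, e, hZ, fun E hE => ⟨fun V hV W hW => ?_, ?_, fun P Q => ?_,
        fun R S hR hS => ?_⟩⟩
      · obtain ⟨ρ, ⟨h1, h2⟩, h3⟩ := (hL E hE).1 V ((Pool.Agent.N19.BR.minimalModels_iff _ _).1 hV) W
          (fun i => (Pool.Agent.N19.BR.minimalModels_iff _ _).1 (hW i))
        refine ⟨ρ, h1, h2, fun s hs => ?_⟩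
        rw [hcomp, h3 s hs, Finset.prod_congr rfl fun i _ => by rw [← hcomp (W i) s]]
      · obtain ⟨r0, h1, h2⟩ := (hL E hE).2.1 (fun i => rank (TwistOver E (Z i) (D i)))
          (fun i => (hrk (hTw E hE (Z i) (D i) (hZ i).1)).2 rfl)
        have h3 := (hrk (W := E.map (algebraMap k K)) inferInstance).1 h1
        unfold RankSum
        rw [h3]
        exact h2
      · obtain ⟨p⟩ := Pool.Agent.H453.OM.exists_base P.toPeriods
        exact (Pool.Agent.H453.OM.om_indep P.toPeriods (p.up K)).trans
          ((hL E hE).2.2.1 p fun i => (Q i).toPeriods)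
      · have h1 := hreg (W := E.map (algebraMap k K)) inferInstance hR
        have h2 : Pool.Agent.Q92.LV.Sim (∏ i, S i ^ e i) (∏ i, Pool.Agent.Q92.LV.reg
            (TwistOver E (Z i) (D i)) ^ e i) := Pool.Agent.Q92.LV.Sim.prod _ fun i _ =>
          (hreg (hTw E hE (Z i) (D i) (hZ i).1) (hS i)).zpow _
        exact h1.trans (((hL E hE).2.2.2).trans h2.symm)
    · exact Or.inr (hshape' hK)
  · intro E hE hc
    by_cases hK : Pool.Agent.H453.OM.FacO (Module.finrank k K) (⟨K⟩ : Ext k)
    · left
      have hEK : (E.map (algebraMap k K)).IsElliptic := inferInstance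
      obtain ⟨Λ, hΛ, h, h1⟩ := Pool.Agent.H453.OM.value_at_one hK E hE
        (U := {s | 1 < s.re} ∪ {1}) (fun s hs => hs) (by
        intro Z hZ D hD
        obtain ⟨Λ, ⟨hΛ, -, h⟩, h1⟩ := hc Z hZ D hD
        refine ⟨Λ, hΛ, fun W hW s hs => ?_, fun q => h1 (ofPeriods q)⟩
        rw [h W ((Pool.Agent.N19.BR.minimalModels_iff _ _).2 hW) s hs, hcomp])
      refine ⟨Λ, ⟨hΛ, ?_, fun V hV s hs => ?_⟩, fun P => h1 P.toPeriods⟩
      · obtain ⟨V, hV⟩ := Pool.Agent.R433.MD.exists_minimal (E.map (algebraMap k K)) hEK
        exact ⟨V, (Pool.Agent.N19.BR.minimalModels_iff _ _).2 hV⟩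
      · rw [hcomp]
        exact h V ((Pool.Agent.N19.BR.minimalModels_iff _ _).1 hV) s hs
    · exact Or.inr (hshape hK)
  · intro E hE t hc
    by_cases hK : Pool.Agent.H453.OM.FacO (Module.finrank k K) (⟨K⟩ : Ext k)
    · left
      have hEK : (E.map (algebraMap k K)).IsElliptic := inferInstance
      obtain ⟨Λ, hΛ, h, m, hm, h1⟩ := Pool.Agent.H453.OM.lead_at_one hK t E hE
        (U := {s | 1 < s.re} ∪ {1}) (fun s hs => hs) (Or.inr rfl) (by
        intro Z hZ D hD
        obtain ⟨Λ, ⟨hΛ, -, h⟩, m, hm, h1⟩ := hc Z hZ D hD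
        refine ⟨Λ, hΛ, fun W hW s hs => ?_, m, hm, fun hmt => ⟨(hrk (hTw E hE Z D hD)).2 (h1 hmt).1,
          fun q => (h1 hmt).2 (ofPeriods q) _
            (hregE.2 (Pool.Agent.Q92.LV.reg_spec (hTw E hE Z D hD)))⟩⟩
        rw [h W ((Pool.Agent.N19.BR.minimalModels_iff _ _).2 hW) s hs, hcomp])
      refine ⟨Λ, ⟨hΛ, ?_, fun V hV s hs => ?_⟩, m, hm, fun hmt => ⟨(hrk hEK).1 (h1 hmt).1,
        fun P R hR => ?_⟩⟩
      · obtain ⟨V, hV⟩ := Pool.Agent.R433.MD.exists_minimal (E.map (algebraMap k K)) hEK
        exact ⟨V, (Pool.Agent.N19.BR.minimalModels_iff _ _).2 hV⟩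
      · rw [hcomp]
        exact h V ((Pool.Agent.N19.BR.minimalModels_iff _ _).1 hV) s hs
      · refine ((h1 hmt).2 P.toPeriods).trans (Pool.Agent.H453.OM.sim_c ?_)
        exact (Pool.Agent.Q92.LV.Sim.refl (Omega P)).mul (hreg hEK hR).symm
    · exact Or.inr (hshape hK)
  · intro E hE d U hU hcont
    by_cases hK : Pool.Agent.H453.OM.FacZ (Module.finrank k K) (⟨K⟩ : Ext k)
    · left
      obtain ⟨ι, hι, Z, D, e, hZ, hL⟩ := hK
      have hEK : (E.map (algebraMap k K)).IsElliptic := inferInstance
      have hT : ∀ i, (TwistOver E (Z i) (D i)).IsElliptic := fun i =>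
        hTw E hE (Z i) (D i) (hZ i).1
      obtain ⟨V, hV⟩ := Pool.Agent.R433.MD.exists_minimal (E.map (algebraMap k K)) hEK
      choose W hW using fun i => Pool.Agent.R433.MD.exists_minimal _ (hT i)
      choose Λ hΛ m hm hd hlc using fun i => hcont (Z i) (hZ i).2 (D i) (hZ i).1
      have hΛ' := fun i => (Pool.Agent.N19.BR.continues_iff (hT i) (hW i)).1 (hΛ i)
      obtain ⟨R, hR, hRL⟩ := (hL E hE).1 V hV W hW
      obtain ⟨r₀, hr₀, hsum⟩ := (hL E hE).2.1 (fun i => rank (TwistOver E (Z i) (D i)))
        (fun i => (hrk (hT i)).2 rfl)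
      have hr₁ := (hrk hEK).1 hr₀
      have hmer : ∀ i, MeromorphicAt (Λ i) 1 := fun i => (hΛ' i).1 1 hU
      have hR1 : MeromorphicAt R 1 := hR.1.1 1 trivial
      have hRa := hR.2 1 (Or.inr rfl)
      have hRo : meromorphicOrderAt R 1 = 0 := by
        rw [hRa.1.meromorphicOrderAt_eq, hRa.1.analyticOrderAt_eq_zero.2 hRa.2]
        rfl
      refine ⟨R * ∏ i, Λ i ^ e i,
        (Pool.Agent.N19.BR.continues_iff hEK hV).2 ⟨?_, fun s hs => ?_⟩, ∑ i, e i * m i, ?_, ?_,
        fun P R' hR' => ?_⟩
      · have h1 : MeromorphicOn R U := fun x _ => hR.1.1 x trivial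
        exact h1.mul (MeromorphicOn.prod fun i _ => (hΛ' i).1.zpow _)
      · have h2 : Pool.Agent.R433.MD.LL V s = R s * ∏ i, Pool.Agent.R433.MD.LL (W i) s ^ e i :=
          hRL s hs
        rw [pow_one, h2, Pi.mul_apply, Finset.prod_apply]
        congr 1
        refine Finset.prod_congr rfl fun i _ => ?_
        rw [Pi.pow_apply, (hΛ' i).2 s hs, pow_one]
      · rw [meromorphicOrderAt_mul hR1 (MeromorphicAt.prod fun i _ => (hmer i).zpow _),
          hRo, zero_add, meromorphicOrderAt_prod fun i _ => (hmer i).zpow _]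
        have h4 : ∀ i, meromorphicOrderAt (Λ i ^ e i) 1 = ((e i * m i : ℤ) : WithTop ℤ) := fun i => by
          rw [meromorphicOrderAt_zpow (hmer i), hm i]
          rfl
        rw [Finset.sum_congr rfl fun i _ => h4 i, ← WithTop.coe_sum]
      · rw [hr₁, hsum, ← Finset.sum_sub_distrib]
        refine Finset.dvd_sum fun i _ => ?_
        rw [← mul_sub]
        exact Dvd.dvd.mul_left (hd i) _
      · obtain ⟨p⟩ := Pool.Agent.H453.OM.exists_base P.toPeriods
        have hq : ∀ i, Nonempty (Pool.Agent.Q92.LV.Periods (TwistOver E (Z i) (D i))) := by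
          intro i
          obtain ⟨q, -⟩ := Pool.Agent.H453.OM.exists_tw (p.up (Z i).F) (d := (D i : (Z i).F)) (by
            rw [Ne, FaithfulSMul.algebraMap_eq_zero_iff]
            exact (hZ i).1)
          exact ⟨q⟩
        have q := fun i => Classical.choice (hq i)
        have h1 := (Pool.Agent.H453.OM.om_indep P.toPeriods (p.up K)).trans
          ((hL E hE).2.2.1 p q)
        have h2 := h1.mul ((hreg hEK hR').trans (hL E hE).2.2.2)
        rw [← Finset.prod_mul_distrib] at h2
        rw [hR1.meromorphicTrailingCoeffAt_mul (MeromorphicAt.prod fun i _ => (hmer i).zpow _),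
          meromorphicTrailingCoeffAt_prod fun i _ => (hmer i).zpow _,
          hRa.1.meromorphicTrailingCoeffAt_of_ne_zero hRa.2]
        refine Pool.Agent.Q92.LV.Sim.trans ?_ (Pool.Agent.H453.OM.sim_c h2).symm
        rw [Complex.ofReal_prod]
        have h6 : Pool.Agent.Q92.LV.Sim (∏ i, meromorphicTrailingCoeffAt (Λ i ^ e i) 1)
            (∏ i, (((q i).Om ^ e i * (Pool.Agent.Q92.LV.reg (TwistOver E (Z i) (D i))) ^ e i : ℝ)
              : ℂ)) := by
          refine Pool.Agent.Q92.LV.Sim.prod _ fun i _ => ?_
          rw [(hmer i).meromorphicTrailingCoeffAt_zpow, ← mul_zpow, Complex.ofReal_zpow]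
          have h7 : Pool.Agent.Q92.LV.Sim (meromorphicTrailingCoeffAt (Λ i) 1)
              (((q i).Om * Pool.Agent.Q92.LV.reg (TwistOver E (Z i) (D i)) : ℝ) : ℂ) :=
            hlc i (ofPeriods (q i)) _ (hregE.2 (Pool.Agent.Q92.LV.reg_spec (hT i)))
          exact h7.zpow (e i)
        have h8 := (Pool.Agent.H453.OM.Nice.sim hR).mul h6
        rwa [one_mul] at h8
    · exact Or.inr (hshape' hK)

end Pool.Agent.Results.MP_90f827_nt.MinimalCounterexample
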